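import Pool.Agent.U281.LU.Fin

set_option autoImplicit false

/-!
# The uniform law at every disorder: a uniform limiting absorption principle

Let `ω_x`, `x ∈ ℤ^d`, `d ≥ 1`, be i.i.d. with the uniform law on `[-c, c]`, and
`Δ_ω = -Δ + ω` the uniform Anderson model. Given `0 < c₁ ≤ c₂`, an interval `[a, b]` (for
instance one which contains the spectra `[-c, 4 d + c]` of all `Δ_ω`, `c ≤ c₂`), `1 < p < 2`,
`0 ≤ g < d / 3` and `ε > 0`, there is a continuous function `f` such that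
`∫ |f(λ(k))|^p dk ≤ ε`, `λ` the symbol of `-Δ`, with all hopping amplitudes of `f(-Δ)` at most
`ε / (1 + |x|) ^ g`, and there are constants `C_q`, `θ_q(e)` such that for every
`c ∈ [c₁, c₂]` the operator `H = Δ_ω + f(-Δ)` has the following properties in the CLOSED interval
`[a, b]`, with the SAME constants for all `c`. Let `G(x, y; z) = ⟨δ_x, (H - z)⁻¹ δ_y⟩`.

* `E |G(x, x; z)|^q ≤ C_q` and `E |⟨δ_x, Im (H - z)⁻¹ δ_y⟩|^q ≤ C_q` up to the real axis;
* `E |G(x, x; z) - G(x, x; z')|^q ≤ e` for `|z - z'| ≤ θ_q(e)`;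
* `P((1 + ω_x²) Im G(x, x; z) < t) ≤ C_q t ^ q`;
* boundary values `G(x, x; E + i0)` exist in every `L^q(P)` at every energy `E ∈ [a, b]`, with the same
  bounds and with the rate of convergence `θ_q(e)`;
* almost surely, the spectral measure of every `δ_x` is purely absolutely continuous in `(a, b)`
  with the density `Im G(x, x; E + i0) / π`, which is positive almost everywhere.

There is no smallness condition on the disorder: `c` may be above the threshold beyond which `Δ_ω`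
itself has purely singular spectrum. The theorem is stated for an arbitrary continuous kinetic
energy `K` instead of `-Δ`, and with `ω = c u`, `u` i.i.d. uniform on `[-1, 1]`.
-/

namespace Pool.Agent.Results.MP_562b47_mp.AllDisorderLimitingAbsorption

open MeasureTheory

noncomputable section

/-- The symbol `∑ i (2 - 2 cos (2 π k_i))` of `-Δ` on `ℤ^d`. -/
def lapSymbol (d : ℕ) : C(UnitAddTorus (Fin d), ℝ) where
  toFun k := ∑ i, (2 - 2 * (fourier 1 (k i)).re)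
  continuous_toFun := by fun_prop

/-- The hopping amplitudes of the translation invariant operator with symbol `K`. -/
def hopping {d : ℕ} (K : C(UnitAddTorus (Fin d), ℝ)) (x : Fin d → ℤ) : ℂ :=
  UnitAddTorus.mFourierCoeff (fun k : UnitAddTorus (Fin d) => ((K k : ℝ) : ℂ)) x

/-- `((K + lam V_ω) u) (y)`. -/
def H {d : ℕ} (K : C(UnitAddTorus (Fin d), ℝ)) (lam : ℝ) (ω : (Fin d → ℤ) → ℝ)
    (u : (Fin d → ℤ) → ℂ) (y : Fin d → ℤ) : ℂ :=
  (∑' y', hopping K (y - y') * u y') + ((lam * ω y : ℝ) : ℂ) * u y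

/-- `u` is square summable and `(H - z) u = δ_x`, i.e. `u = (H - z)⁻¹ δ_x`. -/
def IsGreen {d : ℕ} (K : C(UnitAddTorus (Fin d), ℝ)) (lam : ℝ) (ω : (Fin d → ℤ) → ℝ) (z : ℂ)
    (x : Fin d → ℤ) (u : (Fin d → ℤ) → ℂ) : Prop :=
  Summable (fun y => ‖u y‖ ^ 2) ∧ ∀ y, H K lam ω u y - z * u y = if y = x then 1 else 0

open Classical in
/-- `(H - z)⁻¹ δ_x`, a function on `ℤ^d` (it exists and is unique by `LAP.resolvent`). -/
def green {d : ℕ} (K : C(UnitAddTorus (Fin d), ℝ)) (lam : ℝ) (ω : (Fin d → ℤ) → ℝ) (z : ℂ)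
    (x : Fin d → ℤ) : (Fin d → ℤ) → ℂ :=
  if h : ∃ u, IsGreen K lam ω z x u then Classical.choose h else 0

/-- `⟨δ_x, Im (H - z)⁻¹ δ_y⟩ = Im z ⟨(H - z)⁻¹ δ_x, (H - z)⁻¹ δ_y⟩`. -/
def imGreen {d : ℕ} (K : C(UnitAddTorus (Fin d), ℝ)) (lam : ℝ) (ω : (Fin d → ℤ) → ℝ) (z : ℂ)
    (x y : Fin d → ℤ) : ℂ :=
  (z.im : ℂ) * ∑' w, (starRingEnd ℂ) (green K lam ω z x w) * green K lam ω z y w

/-- The law of the disorder: `ω` is i.i.d. with law `ν`. -/
abbrev Law (d : ℕ) (ν : Measure ℝ) : Measure ((Fin d → ℤ) → ℝ) :=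
  Measure.infinitePi fun _ : Fin d → ℤ => ν

/-- `E |F| ^ p ≤ C`, the expectation being finite. -/
def MomentLE {d : ℕ} (ν : Measure ℝ) (p : ℕ) (F : ((Fin d → ℤ) → ℝ) → ℂ) (C : ℝ) : Prop :=
  Integrable (fun ω => ‖F ω‖ ^ p) (Law d ν) ∧ ∫ ω, ‖F ω‖ ^ p ∂(Law d ν) ≤ C

/-- The strip `a ≤ Re z ≤ b`, `0 < Im z ≤ η`. -/
def Strip (a b η : ℝ) : Set ℂ := {z | a ≤ z.re ∧ z.re ≤ b ∧ 0 < z.im ∧ z.im ≤ η}

/-- The uniform limiting absorption principle for `K + lam V_ω` in `[a, b]` with the constants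
`C q` and the moduli `θ q e`. -/
structure LAP {d : ℕ} (K : C(UnitAddTorus (Fin d), ℝ)) (lam : ℝ) (ν : Measure ℝ)
    (a b η : ℝ) (C : ℕ → ℝ) (θ : ℕ → ℝ → ℝ) : Prop where
  /-- The resolvent is well defined and depends measurably on the disorder. -/
  resolvent : ∀ z : ℂ, 0 < z.im → ∀ x : Fin d → ℤ,
    (∀ ω u, IsGreen K lam ω z x u ↔ u = green K lam ω z x) ∧
      ∀ y, Measurable fun ω => green K lam ω z x y
  /-- Moments, uniformly in the energy and in the sites. -/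
  moments : ∀ q : ℕ, 1 ≤ q → ∀ (x y : Fin d → ℤ), ∀ z ∈ Strip a b η,
    MomentLE ν q (fun ω => green K lam ω z x x) (C q) ∧
      MomentLE ν q (fun ω => imGreen K lam ω z x y) (C q)
  /-- Uniform continuity up to the real axis in every `L^q`. -/
  continuity : ∀ (q : ℕ) (e : ℝ), 1 ≤ q → 0 < e → ∀ x : Fin d → ℤ,
    ∀ z ∈ Strip a b η, ∀ z' ∈ Strip a b η, ‖z - z'‖ ≤ θ q e →
      MomentLE ν q (fun ω => green K lam ω z x x - green K lam ω z' x x) e
  /-- Small values of the imaginary part are rare. -/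
  smallValues : ∀ q : ℕ, 1 ≤ q → ∀ x : Fin d → ℤ, ∀ z ∈ Strip a b η, ∀ t : ℝ, 0 < t →
    Law d ν {ω | (1 + (lam * ω x) ^ 2) * (green K lam ω z x x).im < t}
      ≤ ENNReal.ofReal (C q * t ^ q)
  /-- The boundary values `B x ω E = G(x, x; E + i0)`: moments, small values, convergence in every
  `L^q`; almost surely `Im B x ω E / π` is the density of the spectral measure of `δ_x`. -/
  boundary : ∃ B : (Fin d → ℤ) → ((Fin d → ℤ) → ℝ) → ℝ → ℂ,
    (∀ x, Measurable (Function.uncurry (B x))) ∧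
    (∀ q : ℕ, 1 ≤ q → ∀ (x : Fin d → ℤ) (E : ℝ), a ≤ E → E ≤ b →
      MomentLE ν q (fun ω => B x ω E) (C q) ∧ ∀ t : ℝ, 0 < t →
        Law d ν {ω | (1 + (lam * ω x) ^ 2) * (B x ω E).im < t} ≤ ENNReal.ofReal (C q * t ^ q)) ∧
    (∀ (q : ℕ) (e : ℝ), 1 ≤ q → 0 < e → ∀ x : Fin d → ℤ,
      ∀ z ∈ Strip a b η, z.im ≤ θ q e →
        MomentLE ν q (fun ω => green K lam ω z x x - B x ω z.re) e) ∧
    ∀ᵐ ω ∂(Law d ν), ∀ x : Fin d → ℤ,
      (∀ᵐ E ∂(volume.restrict (Set.Ioo a b)), 0 < (B x ω E).im / Real.pi) ∧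
      ∃ μ : Measure ℝ, IsFiniteMeasure μ ∧
        (∀ z : ℂ, 0 < z.im → green K lam ω z x x = ∫ E : ℝ, 1 / ((E : ℂ) - z) ∂μ) ∧
        μ.restrict (Set.Ioo a b) = (volume.restrict (Set.Ioo a b)).withDensity
          fun E => ENNReal.ofReal ((B x ω E).im / Real.pi)

/-- The uniform law on `[-1, 1]`. -/
def unif : Measure ℝ := (2 : ENNReal)⁻¹ • (volume.restrict (Set.Icc (-1 : ℝ) 1))

theorem isGreen_iff {d : ℕ} (K : C(UnitAddTorus (Fin d), ℝ)) (lam : ℝ) (ω : (Fin d → ℤ) → ℝ)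
    {z : ℂ} (hz : 0 < z.im) (x : Fin d → ℤ) (u : (Fin d → ℤ) → ℂ) :
    IsGreen K lam ω z x u ↔ u = U281.LAP.Gr K lam ω z x := by
  rw [← U281.LAP.Gr_iff K lam ω hz x u]
  exact Iff.rfl

theorem green_eq {d : ℕ} (K : C(UnitAddTorus (Fin d), ℝ)) (lam : ℝ) (ω : (Fin d → ℤ) → ℝ)
    {z : ℂ} (hz : 0 < z.im) (x : Fin d → ℤ) :
    green K lam ω z x = U281.LAP.Gr K lam ω z x := by
  have hex : ∃ u, IsGreen K lam ω z x u := ⟨_, (isGreen_iff K lam ω hz x _).2 rfl⟩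
  unfold green
  rw [dif_pos hex]
  exact (isGreen_iff K lam ω hz x _).1 (Classical.choose_spec hex)

theorem lap_of_full {d : ℕ} {K : C(UnitAddTorus (Fin d), ℝ)} {lam : ℝ} {ν : Measure ℝ}
    [IsProbabilityMeasure ν] {a b η : ℝ} {C : ℕ → ℝ} {θ : ℕ → ℝ → ℝ}
    (h : U281.LU.FullC K lam ν a b η C θ) : LAP K lam ν a b η C θ := by
  refine ⟨fun z hz x => ⟨fun ω u => ?_, fun y => ?_⟩, fun p hp => ?_, fun p e hp he => ?_,
    fun p hp => ?_, ?_⟩
  · rw [green_eq K lam ω hz x]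
    exact isGreen_iff K lam ω hz x u
  · simp only [green_eq K lam _ hz x]
    exact U281.LAP.Gr_meas K lam hz x y
  · intro x y z hz
    have hz2 : 0 < z.im := hz.2.2.1
    have h1 := h.mom p hp x y z hz
    unfold imGreen
    simp only [green_eq K lam _ hz2]
    exact h1
  · intro x z hz z' hz' hzz
    have hz2 : 0 < z.im := hz.2.2.1
    have hz2' : 0 < z'.im := hz'.2.2.1
    simp only [green_eq K lam _ hz2, green_eq K lam _ hz2']
    exact h.cont p e hp he x z hz z' hz' hzz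
  · intro x z hz t ht
    have hz2 : 0 < z.im := hz.2.2.1
    simp only [green_eq K lam _ hz2]
    exact h.small p hp x z hz t ht
  · obtain ⟨B, h1, h2, h3, h4⟩ := h.bdry
    refine ⟨B, h1, h2, fun p e hp he => ?_, ?_⟩
    · intro x z hz hzθ
      have hz2 : 0 < z.im := hz.2.2.1
      simp only [green_eq K lam _ hz2]
      exact h3 p e hp he x z hz hzθ
    · change ∀ᵐ ω ∂(W792.WA.Pn ν (Fin d → ℤ)), _
      filter_upwards [h4] with ω hω x
      obtain ⟨k1, μ, k2, k3, k4⟩ := hω x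
      refine ⟨k1, μ, k2, fun z hz => ?_, k4⟩
      rw [green_eq K lam ω hz x]
      exact k3 z hz

instance unif_prob : IsProbabilityMeasure unif := by
  refine ⟨?_⟩
  unfold unif
  rw [Measure.smul_apply, Measure.restrict_apply_univ, Real.volume_Icc, smul_eq_mul]
  have e : ENNReal.ofReal (1 - -1) = 2 := by norm_num
  rw [e]
  exact ENNReal.inv_mul_cancel (by norm_num) (by norm_num)

theorem unif_atom (a : ℝ) : unif {a} < 1 := by
  have e : unif {a} = 0 := by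
    unfold unif
    rw [Measure.smul_apply, smul_eq_mul]
    have h : (volume.restrict (Set.Icc (-1 : ℝ) 1)) {a} = 0 :=
      le_antisymm ((Measure.restrict_apply_le _ _).trans (by simp)) zero_le
    rw [h, mul_zero]
  rw [e]
  exact one_pos

/-- Let `K` be a continuous real function on `T^d`, `d ≥ 1`, let `a < b`, `0 < c₁`, `1 < p < 2`,
`0 ≤ g < d / 3` and `ε > 0`. There are a continuous function `f` with `∫ |f(λ(k))|^p dk ≤ ε`, `λ` the
symbol of `-Δ`, and hopping amplitudes of `f(-Δ)` at most `ε / (1 + |x|) ^ g`, `|x| = max |x_i|`,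
and constants `C q ≥ 0`, `θ q e > 0` such that for all `c₁ ≤ c ≤ c₂` the operator `K + f(-Δ) + ω`,
`ω = c u` i.i.d. with the uniform law on `[-c, c]`, satisfies the uniform limiting absorption
principle in the closed interval `[a, b]` with these constants. -/
theorem result (d : ℕ) (hd : 0 < d) (K : C(UnitAddTorus (Fin d), ℝ)) (a b p g c₁ c₂ ε : ℝ)
    (hab : a < b) (hp1 : 1 < p) (hp2 : p < 2) (hg0 : 0 ≤ g) (hg : g < (d : ℝ) / 3)
    (hc₁ : 0 < c₁) (hε : 0 < ε) :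
    ∃ f : C(ℝ, ℝ), (∫ k : UnitAddTorus (Fin d), |f (lapSymbol d k)| ^ p ≤ ε) ∧
      (∀ x : Fin d → ℤ, ‖hopping (f.comp (lapSymbol d)) x‖ ≤ ε / (1 + ‖x‖) ^ g) ∧
      ∃ (C : ℕ → ℝ) (θ : ℕ → ℝ → ℝ), (∀ q, 0 ≤ C q) ∧ (∀ q e, 0 < e → 0 < θ q e) ∧
        ∀ c : ℝ, c₁ ≤ c → c ≤ c₂ →
          LAP (K + f.comp (lapSymbol d)) c unif a b ((b - a) / (4 * d)) C θ := by
  have hvr : 0 < W792.WA.vr unif := Pool.Agent.W792.WA.Ch.vr_pos W792.WA.Al.cay _ unif_atom
  obtain ⟨κ, hκ⟩ : ∃ κ, κ = min (min c₁ (W792.WA.vr unif)) (1 / max c₂ 1) := ⟨_, rfl⟩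
  have hm : 0 < max c₂ 1 := lt_of_lt_of_le one_pos (le_max_right _ _)
  have hκ0 : 0 < κ := by
    rw [hκ]
    exact lt_min (lt_min hc₁ hvr) (by positivity)
  have k1 : κ ≤ c₁ := by
    rw [hκ]
    exact (min_le_left _ _).trans (min_le_left _ _)
  have k2 : κ ≤ W792.WA.vr unif := by
    rw [hκ]
    exact (min_le_left _ _).trans (min_le_right _ _)
  have k3 : max c₂ 1 ≤ 1 / κ := by
    have h : κ ≤ 1 / max c₂ 1 := by rw [hκ]; exact min_le_right _ _
    rw [le_div_iff₀ hm] at h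
    rw [le_div_iff₀ hκ0]
    linarith
  obtain ⟨f, h1, h2, C, θ, hC, hθ, h3⟩ :=
    U281.LU.fin d K a b p g κ ε hd hab hp1 hp2 hg0 hg hκ0 hε
  refine ⟨f, h1, h2, C, θ, hC, hθ, fun c hc1 hc2 => lap_of_full ?_⟩
  have hc0 : 0 < c := hc₁.trans_le hc1
  exact h3 unif k2 c (by rw [abs_of_pos hc0]; linarith)
    (by rw [abs_of_pos hc0]; exact (hc2.trans (le_max_left _ _)).trans k3)

end

end Pool.Agent.Results.MP_562b47_mp.AllDisorderLimitingAbsorption
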