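import Pool.Agent.U874.Tr.Main

/-!
# The Anderson model on `ℤ³` at weak disorder: the distance of the random potential from the
potentials with an extended state at the bottom of the spectrum is of order `c³`

`Δ_ω = -Δ + ω` on `ℓ²(ℤ³)`, `ω = c V` with `(V x)` iid with a law on `[-1, 1]` (for instance the
uniform law), `c` small. We ask how much the potential has to be changed, on the average over the
sites, in order to produce an extended generalised eigenfunction at the bottom of the spectrum.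

* (A) There is a translation invariant coupling of `V` with a potential `V'` such that almost surely
  `-Δ + c V'` has an extended generalised ground state: a solution `ψ` of `-Δψ + c V'ψ = E ψ` on
  `ℤ³` with `1 ≤ ψ ≤ 1 + η`, with `E` deterministic and equal to the bottom of the spectrum on
  `ℓ²(ℤ³)`, with eigenvalue counting functions and local spectral bounds as for `-Δ`, and
  `𝔼 |V' - V| ≤ C c³ log² (1/c)`. Moreover `|V' - V| > C c³ log² (1/c)` at a given site only with
  probability at most `c^K`, and always `|V' - V| ≤ 3`.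
* (B) The order `c³` cannot be improved: for every law which is not a point mass and has a fourth
  moment, and every `M`, every coupling (translation invariant or not) of `V` with a potential `V'`
  for which `-Δψ + c V'ψ = E ψ` has a solution with `1 ≤ ψ ≤ M`, for some possibly random `E`, has
  `𝔼 |V' x - V x| ≥ k c³` at some site `x`.

In terms of the operators: the disorder `ω` is at the mean distance `c⁴`, up to `log² (1/c)`, from
the potentials with an extended ground state. In dimensions `d ≥ 5` this distance is exponentially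
small, `exp(-Θ(c^(-d/2)))`.

(A) is obtained from the penalised equation of the starting files `Pool/Agent/H4R2/AE/` for the tori
with the mass `κ ~ (c² log (1/c))²`, which is kept as a small change of the potential; the limit of
the laws is in `Pool/Agent/U874/Tr/Up2.lean`, the properties of the operators in
`Pool/Agent/U874/And/`. (B) is new (`Pool/Agent/U874/Tr/Low1-5.lean`): a concave functional of the
potential in a box of side `c⁻²` which is monotone and Lipschitz at each site with the same constant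
up to a factor and is equal to `E + O(c⁴)` for potentials with a flat state; its fluctuations are
compared with those of a sum of independent variables by exchanging the sites of two boxes.
-/

set_option autoImplicit false

namespace Pool.Agent.Results.MP_562b47_mp.DistanceToExtendedState

open MeasureTheory
open scoped InnerProductSpace

/-- the lattice `ℤ³` -/
abbrev Lat : Type := Fin 3 → ℤ

/-- `-Δ + c V` on real functions on `ℤ³` -/
noncomputable def Hop (c : ℝ) (V f : Lat → ℝ) (x : Lat) : ℝ :=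
  ∑ i : Fin 3, (2 * f x - f (x + Pi.single i 1) - f (x - Pi.single i 1)) + c * V x * f x

/-- `ℓ²(ℤ³)` -/
abbrev L2 : Type := lp (fun _ : Lat => ℂ) 2

/-- the bounded operator `H` on `ℓ²(ℤ³)` is `-Δ + c V` -/
def IsH (c : ℝ) (V : Lat → ℝ) (H : L2 →L[ℂ] L2) : Prop :=
  ∀ (f : L2) (x : Lat), (H f) x =
    ∑ i : Fin 3, (2 * f x - f (x + Pi.single i 1) - f (x - Pi.single i 1)) +
      ((c * V x : ℝ) : ℂ) * f x

/-- the restriction of `-Δ + c V` to the functions on the finite set `Λ` has at least `k`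
eigenvalues, counted with multiplicity, that are at most `t` (min-max principle) -/
def Eigs (c : ℝ) (V : Lat → ℝ) (Λ : Finset Lat) (t : ℝ) (k : ℕ) : Prop :=
  ∃ W : Submodule ℝ (Lat → ℝ), Module.finrank ℝ W = k ∧ ∀ f ∈ W, (∀ x ∉ Λ, f x = 0) ∧
    ∑ x ∈ Λ, f x * Hop c V f x ≤ t * ∑ x ∈ Λ, f x ^ 2

/-- `-Δ + c V` has a generalised eigenfunction with energy `E` and values in `[1, M]` -/
def Flat (M c E : ℝ) (V : Lat → ℝ) : Prop :=
  ∃ ψ : Lat → ℝ, (∀ x, 1 ≤ ψ x ∧ ψ x ≤ M) ∧ ∀ x, Hop c V ψ x = E * ψ x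

/-- the numbers of eigenvalues in finite sets, counted from `E`, are comparable with those of `-Δ`,
up to a factor `κ` in the energy -/
def Comparable (κ c E : ℝ) (V : Lat → ℝ) : Prop :=
  ∀ (Λ : Finset Lat) (s : ℝ) (k : ℕ), 0 ≤ s →
    (Eigs 0 (0 : Lat → ℝ) Λ s k → Eigs c V Λ (E + κ * s) k) ∧
    (Eigs c V Λ (E + s) k → Eigs 0 (0 : Lat → ℝ) Λ (κ * s) k)

/-- `E` is the bottom of the spectrum of `H`, in terms of the quadratic form -/
def IsBottom (E : ℝ) (H : L2 →L[ℂ] L2) : Prop :=
  (∀ f : L2, E * ‖f‖ ^ 2 ≤ (⟪f, H f⟫_ℂ).re) ∧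
  ∀ ε : ℝ, 0 < ε → ∃ f : L2, f ≠ 0 ∧ (⟪f, H f⟫_ℂ).re ≤ (E + ε) * ‖f‖ ^ 2

/-- the states of all invariant subspaces `M` of energies at most `E + s` are spread over at least
`1 / (C s^(3/2))` sites -/
def Spread (C E : ℝ) (H : L2 →L[ℂ] L2) : Prop :=
  ∀ s : ℝ, 0 < s → ∀ M : Submodule ℂ L2, (∀ f ∈ M, H f ∈ M) →
    (∀ f ∈ M, (⟪f, H f⟫_ℂ).re ≤ (E + s) * ‖f‖ ^ 2) →
    ∀ f ∈ M, ∀ x, ‖f x‖ ^ 2 ≤ C * s ^ ((3 : ℝ) / 2) * ‖f‖ ^ 2

/-- extended generalised ground state with values in `[1, 1 + η]` and energy `E`, the bottom of the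
spectrum; eigenvalue counting and local spectral bounds as for `-Δ` -/
def Extended (C0 η c E : ℝ) (V : Lat → ℝ) : Prop :=
  Flat (1 + η) c E V ∧ Comparable ((1 + η) ^ 2) c E V ∧
    ∃ H : L2 →L[ℂ] L2, IsH c V H ∧ IsBottom E H ∧ Spread C0 E H

/-- pairs `(V, V')` of potentials -/
abbrev Pairs : Type := (Lat → ℝ) × (Lat → ℝ)

/-- `P` is the law of a pair `(V, V')` such that `V` is iid with law `μ` -/
def IsCoupling (μ : Measure ℝ) (P : Measure Pairs) : Prop :=
  IsProbabilityMeasure P ∧ P.map Prod.fst = Measure.infinitePi (fun _ : Lat => μ)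

/-- `P` is invariant under the translations of the lattice -/
def Stationary (P : Measure Pairs) : Prop :=
  ∀ a : Lat, P.map (fun p => (fun x => p.1 (x + a), fun x => p.2 (x + a))) = P

/-- the mean of `|V' x - V x|` -/
noncomputable def meanChange (P : Measure Pairs) (x : Lat) : ENNReal :=
  ∫⁻ p, ENNReal.ofReal |p.2 x - p.1 x| ∂P

/-- **(A)** a mean change of `C c³ log² (1/c)` suffices. **(B)** a mean change less than `k c³` does
not suffice. -/
theorem result :
    (∃ C0 : ℝ, 0 < C0 ∧ ∀ η : ℝ, 0 < η → η ≤ 1 → ∀ K : ℕ, ∃ C : ℝ, 1 ≤ C ∧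
      ∀ μ : Measure ℝ, IsProbabilityMeasure μ → μ (Set.Icc (-1) 1)ᶜ = 0 →
        ∀ c : ℝ, 0 < c → c ≤ 1 / C → ∃ E : ℝ, |E| ≤ c ∧
          ∃ P : Measure Pairs, IsCoupling μ P ∧ Stationary P ∧
            meanChange P 0 ≤ ENNReal.ofReal (C * (c ^ 3 * Real.log (1 / c) ^ 2)) ∧
            P.real {p | C * (c ^ 3 * Real.log (1 / c) ^ 2) < |p.2 0 - p.1 0|} ≤ c ^ K ∧
            ∀ᵐ p ∂P, (∀ x, |p.2 x - p.1 x| ≤ 3) ∧ Extended C0 η c E p.2) ∧
    (∀ μ : Measure ℝ, IsProbabilityMeasure μ → Integrable (fun v : ℝ => v ^ 4) μ →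
      ∀ a b : ℝ, a < b → 0 < μ.real (Set.Iic a) → 0 < μ.real (Set.Ici b) → ∀ M : ℝ, 1 ≤ M →
      ∃ k : ℝ, 0 < k ∧ ∀ c : ℝ, 0 < c → c ≤ 1 →
        ∀ P : Measure Pairs, IsCoupling μ P → (∀ᵐ p ∂P, ∃ E : ℝ, Flat M c E p.2) →
          ∃ x, ENNReal.ofReal (k * c ^ 3) ≤ meanChange P x) := by
  refine ⟨?_, ?_⟩
  · obtain ⟨C0, hC0, h⟩ := Pool.Agent.U874.Tr.main3
    refine ⟨C0, hC0, fun η hη hη1 K => ?_⟩
    obtain ⟨C, hC, h⟩ := h η hη hη1 K
    refine ⟨C, hC, fun μ hμ hμ1 c hc hcC => ?_⟩
    obtain ⟨E, hE, P, hP, h1, h2, h3, h4, h5⟩ := h μ hμ hμ1 c hc hcC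
    refine ⟨E, hE, P, ⟨hP, h1⟩, h2, h3, h4, ?_⟩
    filter_upwards [h5] with p hp
    obtain ⟨g0, g1, g2, H, g3, g4, g5, g6⟩ := hp
    refine ⟨g0, g1, g2, H, g3, ⟨g4, g5⟩, fun s hs M hM hf f hfM x => ?_⟩
    have := g6 s hs M hM hf f hfM x
    push_cast at this
    exact this
  · intro μ hμ hi a b hab ha hb M hM
    obtain ⟨k, hk, h⟩ := Pool.Agent.U874.Tr.lower3 μ hi a b hab ha hb M hM
    exact ⟨k, hk, fun c hc hc1 P hP hae => h c hc hc1 P hP.1 hP.2 hae⟩

end Pool.Agent.Results.MP_562b47_mp.DistanceToExtendedState
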