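import Pool.Agent.U619.AO.Main

/-!
# The Anderson model has no asymptotically free states

`Δ_ω = -Δ + ω` on `ℓ²(ℤ^d)`, `d ≥ 1`, `ω_j` iid with any law which is not a point mass, for instance the
uniform law on `[-c, c]`, `c > 0` (the model of the problem). Almost surely `e^{-itΔ_ω} u` becomes
orthogonal to every free evolution `e^{-it(-τΔ + b)} w`, `τ ≠ 0`, `b` real, as `t → ±∞`, for all
`u, w` in `ℓ²(ℤ^d)`: in other words `e^{it(-τΔ + b)} e^{-itΔ_ω}` tends to zero weakly. In particular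
`‖e^{-itΔ_ω} u - e^{-it(-τΔ + b)} w‖² → ‖u‖² + ‖w‖²`, so that no vector except `0` is asymptotically
free: the (even weak) wave operators between `Δ_ω` and `-τΔ + b`, by which one proves absolutely
continuous spectrum in scattering theory, vanish or do not exist on any nonzero vector, however small
`c > 0` is.
-/

set_option autoImplicit false

open MeasureTheory Filter Topology
open scoped BigOperators ENNReal NNReal InnerProductSpace

namespace Pool.Agent.Results.MP_562b47_mp.NoFreeAsymptotics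

/-- `ℓ²(ℤ^d)` -/
abbrev L2 (d : ℕ) : Type := lp (fun _ : Fin d → ℤ => ℂ) 2

/-- `(H u)(j) = -τ ∑_{|n|=1} (u(j+n) - u(j)) + V_j u(j)` (the unit vectors `n` are `± e_i`);
`τ = 1` and `V = ω` is the operator `Δ_ω` of the problem -/
noncomputable def H {d : ℕ} (τ : ℝ) (V : (Fin d → ℤ) → ℝ) (u : (Fin d → ℤ) → ℂ)
    (j : Fin d → ℤ) : ℂ :=
  -((τ : ℂ) * ∑ i : Fin d, ((u (j + Pi.single i 1) - u j) + (u (j - Pi.single i 1) - u j))) +
    (V j : ℂ) * u j

/-- `U t = e^{-itH}`: norm preserving maps of `ℓ²(ℤ^d)` with `U 0 = 1` and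
`i ∂_t (U_t u) = H U_t u` at every site -/
structure IsPropagator {d : ℕ} (τ : ℝ) (V : (Fin d → ℤ) → ℝ) (U : ℝ → L2 d → L2 d) : Prop where
  zero : ∀ u, U 0 u = u
  norm : ∀ t u, ‖U t u‖ = ‖u‖
  schrodinger : ∀ u t j, HasDerivAt (fun s => (U s u) j)
    (-Complex.I * H τ V (fun k => (U t u) k) j) t

/-- the law of iid variables with law `μ` on `ℤ^d` -/
noncomputable def iid (d : ℕ) (μ : Measure ℝ) : Measure ((Fin d → ℤ) → ℝ) :=
  Measure.infinitePi fun _ => μ

open Pool.Agent.H5R2.NB Pool.Agent.U619.NB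

theorem hop_eq' {d : ℕ} (τ : ℝ) (V : (Fin d → ℤ) → ℝ) (u : (Fin d → ℤ) → ℂ) (x : Fin d → ℤ) :
    hopf (-τ) u x + (((2 * d * τ + V x : ℝ)) : ℂ) * u x = H τ V u x := by
  unfold hopf H
  have : ∑ i : Fin d, ((u (x + Pi.single i 1) - u x) + (u (x - Pi.single i 1) - u x)) =
      ∑ i : Fin d, (u (x + Pi.single i 1) + u (x - Pi.single i 1)) - 2 * d * u x := by
    have h : ∀ i : Fin d, (u (x + Pi.single i 1) - u x) + (u (x - Pi.single i 1) - u x) =
        (u (x + Pi.single i 1) + u (x - Pi.single i 1)) - 2 * u x := fun i => by ring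
    simp only [h, Finset.sum_sub_distrib, Finset.sum_const, Finset.card_univ, Fintype.card_fin,
      nsmul_eq_mul]
    ring
  rw [this]
  push_cast
  ring

theorem sol_of_prop {d : ℕ} {τ : ℝ} {V : (Fin d → ℤ) → ℝ} {U : ℝ → L2 d → L2 d}
    (hU : IsPropagator τ V U) (u : L2 d) :
    IsSol (-τ) (fun x => 2 * d * τ + V x) (fun t => U t u) (fun _ => 0) := by
  refine ⟨fun T => ⟨‖u‖, fun t _ => (hU.norm t u).le⟩, fun t x => ?_⟩
  have h := hU.schrodinger u t x
  rw [← hop_eq' τ V (fun k => (U t u) k) x] at h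
  simpa using h

theorem prop_of_grp {d : ℕ} {τ : ℝ} {V : (Fin d → ℤ) → ℝ}
    {W : UG (Pool.Agent.H5R2.NB.L2 (Site d))}
    (hW : IsGrp (-τ) (fun x => 2 * d * τ + V x) W) :
    IsPropagator τ V (fun t u => W.U t u) := by
  refine ⟨W.zero', W.norm', fun u t x => ?_⟩
  have h := (hW u).2 t x
  rw [← hop_eq' τ V (fun k => (W.U t u) k) x]
  simpa using h

theorem prop_eq {d : ℕ} {τ : ℝ} {V : (Fin d → ℤ) → ℝ} {W : UG (Pool.Agent.H5R2.NB.L2 (Site d))}
    (hW : IsGrp (-τ) (fun x => 2 * d * τ + V x) W) {U : ℝ → L2 d → L2 d}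
    (hU : IsPropagator τ V U) (t : ℝ) (u : L2 d) : U t u = W.U t u := by
  have h := Pool.Agent.H5R2.NB.ALL.a_UN d (-τ) _ W hW (fun t => U t u) (fun _ => 0)
    continuous_const (sol_of_prop hU u) t
  simpa [hU.zero u] using h

theorem exists_unique {d : ℕ} (τ : ℝ) (V : (Fin d → ℤ) → ℝ) :
    ∃! U : ℝ → L2 d → L2 d, IsPropagator τ V U := by
  obtain ⟨W, hW⟩ := Pool.Agent.H5R2.NB.ALL.a_EX d (-τ) (fun x => 2 * d * τ + V x)
  refine ⟨fun t u => W.U t u, prop_of_grp hW, fun U hU => ?_⟩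
  funext t u
  exact prop_eq hW hU t u

theorem star_H {d : ℕ} (τ : ℝ) (V : (Fin d → ℤ) → ℝ) (u : (Fin d → ℤ) → ℂ) (x : Fin d → ℤ) :
    star (H τ V u x) = H τ V (fun k => star (u k)) x := by
  unfold H
  simp only [star_add, star_neg, star_mul', star_sum, star_sub, Complex.star_def,
    Complex.conj_ofReal]

/-- time reversal -/
theorem reversal {d : ℕ} {τ : ℝ} {V : (Fin d → ℤ) → ℝ} {U : ℝ → L2 d → L2 d}
    (hU : IsPropagator τ V U) (t : ℝ) (u : L2 d) : star (U (-t) (star u)) = U t u := by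
  have h : IsPropagator τ V (fun t u => star (U (-t) (star u))) := by
    refine ⟨fun u => ?_, fun t u => ?_, fun u t j => ?_⟩
    · show star (U (-0) (star u)) = u
      rw [neg_zero, hU.zero, star_star]
    · show ‖star (U (-t) (star u))‖ = ‖u‖
      rw [norm_star, hU.norm, norm_star]
    · have h1 := hU.schrodinger (star u) (-t) j
      have h2 : HasDerivAt (fun s : ℝ => (U (-s) (star u)) j)
          (-(-Complex.I * H τ V (fun k => (U (-t) (star u)) k) j)) t := by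
        have h3 : HasDerivAt (fun s : ℝ => (U (-s) (star u)) j)
            ((-1 : ℝ) • (-Complex.I * H τ V (fun k => (U (-t) (star u)) k) j)) t :=
          h1.scomp t (hasDerivAt_neg t)
        rwa [neg_one_smul] at h3
      have h4 := h2.star
      have e : star (-(-Complex.I * H τ V (fun k => (U (-t) (star u)) k) j)) =
          -Complex.I * H τ V (fun k => star ((U (-t) (star u)) k)) j := by
        rw [star_neg, star_mul', star_H, star_neg, Complex.star_def, Complex.conj_I]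
        ring
      rw [e] at h4
      exact h4
  have h5 := (exists_unique τ V).unique h hU
  exact congrFun (congrFun h5 t) u

theorem inner_star_star {d : ℕ} (a b : L2 d) : ⟪star a, star b⟫_ℂ = star ⟪a, b⟫_ℂ := by
  rw [lp.inner_eq_tsum, lp.inner_eq_tsum]
  have h : star (∑' x : Fin d → ℤ, ⟪a x, b x⟫_ℂ) = ∑' x : Fin d → ℤ, star ⟪a x, b x⟫_ℂ :=
    tsum_star
  rw [h]
  refine tsum_congr fun x => ?_
  show ⟪star (a x), star (b x)⟫_ℂ = star ⟪a x, b x⟫_ℂ
  simp [mul_comm]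

/-- For every `d ≥ 1` the unitary groups exist and are unique for all real potentials; let `μ` be a law
which is not a point mass. For almost every `ω` (iid with law `μ`), with `U` the unitary group
`e^{-itΔ_ω}`: for all `τ ≠ 0` and real `b`, with `U₀` the unitary group `e^{-it(-τΔ + b)}`, and for all
`u, w` in `ℓ²(ℤ^d)`, the inner product of `U_t u` and `U₀_t w` tends to `0` as `t → ∞` and as
`t → -∞`; hence `‖U_t u - U₀_t w‖² → ‖u‖² + ‖w‖²`. -/
theorem result (d : ℕ) (hd : 1 ≤ d) (μ : Measure ℝ) [IsProbabilityMeasure μ]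
    (hμ : ∀ r : ℝ, μ {r} ≠ 1) :
    (∀ (τ : ℝ) (V : (Fin d → ℤ) → ℝ), ∃! U : ℝ → L2 d → L2 d, IsPropagator τ V U) ∧
    ∀ᵐ ω ∂(iid d μ), ∀ U : ℝ → L2 d → L2 d, IsPropagator 1 ω U →
      ∀ (τ b : ℝ), τ ≠ 0 → ∀ U₀ : ℝ → L2 d → L2 d, IsPropagator τ (fun _ => b) U₀ →
        ∀ u w : L2 d,
          (Tendsto (fun t : ℝ => ⟪U t u, U₀ t w⟫_ℂ) atTop (𝓝 0) ∧
            Tendsto (fun t : ℝ => ⟪U t u, U₀ t w⟫_ℂ) atBot (𝓝 0)) ∧
          (Tendsto (fun t : ℝ => ‖U t u - U₀ t w‖ ^ 2) atTop (𝓝 (‖u‖ ^ 2 + ‖w‖ ^ 2)) ∧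
            Tendsto (fun t : ℝ => ‖U t u - U₀ t w‖ ^ 2) atBot (𝓝 (‖u‖ ^ 2 + ‖w‖ ^ 2))) := by
  refine ⟨exists_unique, ?_⟩
  choose ev hev using fun V : Site d → ℝ => Pool.Agent.H5R2.NB.ALL.a_EX d (-1) V
  have hg : Measurable (fun r : ℝ => 2 * (d : ℝ) * 1 + r) := by fun_prop
  have hpm : IsProbabilityMeasure (μ.map fun r : ℝ => 2 * (d : ℝ) * 1 + r) :=
    Measure.isProbabilityMeasure_map hg.aemeasurable
  have hne : ∀ κ : ℝ, (μ.map fun r : ℝ => 2 * (d : ℝ) * 1 + r) {κ} ≠ 1 := by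
    intro κ
    rw [Measure.map_apply hg (measurableSet_singleton κ)]
    have : (fun r : ℝ => 2 * (d : ℝ) * 1 + r) ⁻¹' {κ} = {κ - 2 * d * 1} := by
      ext r
      simp only [Set.mem_preimage, Set.mem_singleton_iff]
      constructor <;> intro h <;> linarith
    rw [this]
    exact hμ _
  have hmap : (iid d μ).map (fun (ω : Site d → ℝ) (x : Site d) => 2 * (d : ℝ) * 1 + ω x) =
      PP d (μ.map fun r : ℝ => 2 * (d : ℝ) * 1 + r) := by
    unfold PP iid
    exact Measure.infinitePi_map_pi (μ := fun _ : Site d => μ) (fun _ => hg)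
  have hgm : Measurable (fun (ω : Site d → ℝ) (x : Site d) => 2 * (d : ℝ) * 1 + ω x) :=
    measurable_pi_iff.2 fun x => hg.comp (measurable_pi_apply x)
  have hall := Pool.Agent.U619.AO.orth hd hev hne
  rw [← hmap] at hall
  filter_upwards [ae_of_ae_map hgm.aemeasurable hall] with ω hω
  intro U hU τ b hτ U₀ hU₀
  choose ev' hev' using fun V : Site d → ℝ => Pool.Agent.H5R2.NB.ALL.a_EX d (-τ) V
  have key : ∀ u w : L2 d, Tendsto (fun t : ℝ => ⟪U t u, U₀ t w⟫_ℂ) atTop (𝓝 0) := by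
    intro u w
    refine (hω (-τ) (neg_ne_zero.2 hτ) ev' hev' (2 * d * τ + b) u w).congr fun t => ?_
    rw [prop_eq (hev _) hU, prop_eq (hev' _) hU₀]
  have keyb : ∀ u w : L2 d, Tendsto (fun t : ℝ => ⟪U t u, U₀ t w⟫_ℂ) atBot (𝓝 0) := by
    intro u w
    have h1 := ((key (star u) (star w)).star).comp tendsto_neg_atBot_atTop
    rw [star_zero] at h1
    refine h1.congr fun t => ?_
    simp only [Function.comp]
    rw [← inner_star_star, reversal hU t u |>.symm, reversal hU₀ t w |>.symm]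
  refine fun u w => ⟨⟨key u w, keyb u w⟩, Pool.Agent.U619.AO.dist_of_inner ‖u‖ ‖w‖
    (fun t => hU.norm t u) (fun t => hU₀.norm t w) (key u w), ?_⟩
  have h2 := Pool.Agent.U619.AO.dist_of_inner ‖u‖ ‖w‖ (A := fun t => U (-t) u)
    (B := fun t => U₀ (-t) w) (fun t => hU.norm (-t) u) (fun t => hU₀.norm (-t) w)
    ((keyb u w).comp tendsto_neg_atTop_atBot)
  have h3 := h2.comp tendsto_neg_atBot_atTop
  refine h3.congr fun t => ?_
  simp only [Function.comp, neg_neg]

end Pool.Agent.Results.MP_562b47_mp.NoFreeAsymptotics
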