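import Pool.Agent.U619.UP.Fin

/-!
# Uniform Anderson model, `d ≥ 3`: an uncertainty principle for wave packets down to the scale `c²`

`Δ_ω = -Δ + ω` on `ℓ²(ℤ^d)`, `d ≥ 3`, with iid `ω_j` uniform on `[-c, c]`. Critical energies are
`0, 4, 8, …, 4d`. There is `K`, depending only on `d`, such that for `0 < c ≤ 1/2` and `ρ ≥ 1/c`,
with probability at least `1 - 1/ρ`, for every energy `E` at distance at least `θ` from the critical
energies, every `δ ≥ K c² log(1/c) log ρ`, every wave packet `u` of energy width `δ` around `E`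
(`‖(Δ_ω - E) u‖ ≤ δ ‖u‖`), all times `t`, all sites `a` in the box of radius `ρ` and all `R ≥ 1`:

* (spreading) the mass of `e^{-itΔ_ω} u` in the cube of radius `R` around `a` is at most
  `(K / θ) √(R δ) ‖u‖²`;
* (uncertainty principle) if at some time that cube carries a proportion `κ > 0` of the mass, then
  `R ≥ κ² θ² / (K² δ)`.

This is the behaviour of the free Laplacian for all widths above the kinetic scale `c²`, whatever the
spectral type.
-/

set_option autoImplicit false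

open scoped BigOperators
open MeasureTheory

namespace Pool.Agent.Results.MP_562b47_mp.WavePacketSpreading

/-- `ℓ²(ℤ^d)` -/
abbrev L2 (d : ℕ) : Type := lp (fun _ : Fin d → ℤ => ℂ) 2

/-- `(Δ_ω u)(j) = -∑_{|n|=1} (u(j+n) - u(j)) + ω_j u(j)` -/
noncomputable def H {d : ℕ} (ω : (Fin d → ℤ) → ℝ) (u : (Fin d → ℤ) → ℂ) (j : Fin d → ℤ) : ℂ :=
  -(∑ i : Fin d, ((u (j + Pi.single i 1) - u j) + (u (j - Pi.single i 1) - u j))) + (ω j : ℂ) * u j

/-- `U t = e^{-itΔ_ω}`: norm preserving maps of `ℓ²(ℤ^d)` with `U 0 = 1` and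
`i ∂_t (U_t u) = Δ_ω U_t u` at every site -/
structure IsPropagator {d : ℕ} (ω : (Fin d → ℤ) → ℝ) (U : ℝ → L2 d → L2 d) : Prop where
  zero : ∀ u, U 0 u = u
  norm : ∀ t u, ‖U t u‖ = ‖u‖
  schrodinger : ∀ u t j, HasDerivAt (fun s => (U s u) j)
    (-Complex.I * H ω (fun k => (U t u) k) j) t

/-- the uniform law on `[-c, c]` -/
noncomputable def unif (c : ℝ) : Measure ℝ :=
  ENNReal.ofReal (1 / (2 * c)) • volume.restrict (Set.Icc (-c) c)

open Pool.Agent.H5R2.NB (hopf IsSol IsGrp UG Site)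

theorem hop_eq' {d : ℕ} (ω : (Fin d → ℤ) → ℝ) (u : (Fin d → ℤ) → ℂ) (x : Fin d → ℤ) :
    hopf (-1) u x + (((2 * d + ω x : ℝ)) : ℂ) * u x = H ω u x := by
  unfold hopf H
  have : ∑ i : Fin d, ((u (x + Pi.single i 1) - u x) + (u (x - Pi.single i 1) - u x)) =
      ∑ i : Fin d, (u (x + Pi.single i 1) + u (x - Pi.single i 1)) - 2 * d * u x := by
    have h : ∀ i : Fin d, (u (x + Pi.single i 1) - u x) + (u (x - Pi.single i 1) - u x) =
        (u (x + Pi.single i 1) + u (x - Pi.single i 1)) - 2 * u x := fun i => by ring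
    simp only [h, Finset.sum_sub_distrib, Finset.sum_const, Finset.card_univ, Fintype.card_fin,
      nsmul_eq_mul]
    ring
  rw [this]
  push_cast
  ring

theorem sol_of_prop {d : ℕ} {ω : (Fin d → ℤ) → ℝ} {U : ℝ → L2 d → L2 d}
    (hU : IsPropagator ω U) (u : L2 d) :
    IsSol (-1) (fun x => 2 * d + ω x) (fun t => U t u) (fun _ => 0) := by
  refine ⟨fun T => ⟨‖u‖, fun t _ => (hU.norm t u).le⟩, fun t x => ?_⟩
  have h := hU.schrodinger u t x
  rw [← hop_eq' ω (fun k => (U t u) k) x] at h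
  simpa using h

theorem prop_of_grp {d : ℕ} {ω : (Fin d → ℤ) → ℝ} {W : UG (Pool.Agent.H5R2.NB.L2 (Site d))}
    (hW : IsGrp (-1) (fun x => 2 * d + ω x) W) : IsPropagator ω (fun t u => W.U t u) := by
  refine ⟨W.zero', W.norm', fun u t x => ?_⟩
  have h := (hW u).2 t x
  rw [← hop_eq' ω (fun k => (W.U t u) k) x]
  simpa using h

theorem prop_eq {d : ℕ} {ω : (Fin d → ℤ) → ℝ} {W : UG (Pool.Agent.H5R2.NB.L2 (Site d))}
    (hW : IsGrp (-1) (fun x => 2 * d + ω x) W) {U : ℝ → L2 d → L2 d}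
    (hU : IsPropagator ω U) (t : ℝ) (u : L2 d) : U t u = W.U t u := by
  have h := Pool.Agent.H5R2.NB.ALL.a_UN d (-1) _ W hW (fun t => U t u) (fun _ => 0)
    continuous_const (sol_of_prop hU u) t
  simpa [hU.zero u] using h

/-- **Theorem.** The unitary group `e^{-itΔ_ω}` exists and is unique for every `ω`. For `d ≥ 3` there
is `K` depending only on `d` such that for `0 < c ≤ 1/2`, `ρ ≥ 1/c`, with probability at least
`1 - 1/ρ` (`ω_j` iid uniform on `[-c, c]`): if `0 < θ ≤ 1`, `θ ≤ |E - 4j|` for `j = 0, …, d`,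
`δ ≥ K c² log(1/c) log ρ` and `(Δ_ω - E) u = w` with `‖w‖ ≤ δ ‖u‖`, then for all times `t`, all sites
`|a| ≤ ρ`, all `R ≥ 1` and all finite subsets `A` of the cube of radius `R` around `a`, the mass of
`e^{-itΔ_ω} u` in `A` is at most `(K / θ) √(R δ) ‖u‖²`; and if it is at least `κ ‖u‖²`, `κ > 0`,
`u ≠ 0`, then `R ≥ κ² θ² / (K² δ)`. -/
theorem result (d : ℕ) (hd : 3 ≤ d) :
    (∀ ω : (Fin d → ℤ) → ℝ, ∃! U : ℝ → L2 d → L2 d, IsPropagator ω U) ∧
    ∃ K : ℝ, 0 < K ∧ ∀ c ρ : ℝ, 0 < c → c ≤ 1 / 2 → 1 / c ≤ ρ →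
      ∃ G : Set ((Fin d → ℤ) → ℝ), MeasurableSet G ∧
        1 - 1 / ρ ≤ (Measure.infinitePi fun _ : Fin d → ℤ => unif c).real G ∧
        ∀ ω ∈ G, ∀ U : ℝ → L2 d → L2 d, IsPropagator ω U →
        ∀ (θ E δ : ℝ) (u w : L2 d), 0 < θ → θ ≤ 1 → (∀ j : ℕ, j ≤ d → θ ≤ |E - 4 * j|) →
          K * (c ^ 2 * Real.log (1 / c) * Real.log ρ) ≤ δ →
          (∀ x, H ω (fun y => u y) x = (E : ℂ) * u x + w x) → ‖w‖ ≤ δ * ‖u‖ →
          ∀ (t : ℝ) (a : Fin d → ℤ), ‖a‖ ≤ ρ → ∀ R : ℝ, 1 ≤ R → ∀ A : Finset (Fin d → ℤ),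
            (∀ x ∈ A, ‖x - a‖ ≤ R) →
            (∑ x ∈ A, ‖(U t u) x‖ ^ 2 ≤ K / θ * Real.sqrt (R * δ) * ‖u‖ ^ 2) ∧
            (∀ κ : ℝ, 0 < κ → u ≠ 0 → κ * ‖u‖ ^ 2 ≤ ∑ x ∈ A, ‖(U t u) x‖ ^ 2 →
              κ ^ 2 * θ ^ 2 / (K ^ 2 * δ) ≤ R) := by
  refine ⟨fun ω => ?_, ?_⟩
  · obtain ⟨W, hW⟩ := Pool.Agent.H5R2.NB.ALL.a_EX d (-1) (fun x => 2 * d + ω x)
    refine ⟨fun t u => W.U t u, prop_of_grp hW, fun U hU => ?_⟩
    funext t u
    exact prop_eq hW hU t u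
  obtain ⟨Cg, hCg, hg⟩ := Pool.Agent.U619.UP.gb3 hd
  obtain ⟨K, hK, h⟩ := Pool.Agent.U619.UP.packet (d := d) (by omega) 1 Cg hCg
    (fun L _ δ h1 h2 => hg L δ h1 h2) 1 one_pos
  refine ⟨K, hK, ?_⟩
  intro c ρ hc hc2 hρ
  have hup : IsProbabilityMeasure (unif c) := Pool.Agent.W788.LD.Uni.unif_prob c hc
  have hm : Measurable fun s : ℝ => s / c := by fun_prop
  have hp : IsProbabilityMeasure ((unif c).map fun s => s / c) :=
    Measure.isProbabilityMeasure_map hm.aemeasurable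
  have hbd : ∀ᵐ s ∂((unif c).map fun s => s / c), |s| ≤ 1 := by
    rw [ae_map_iff hm.aemeasurable (measurableSet_le (by fun_prop) (by fun_prop))]
    have h1 : ∀ᵐ s ∂(unif c), |s| ≤ c := Pool.Agent.W788.LD.Uni.unif_bdd c
    filter_upwards [h1] with s hs
    rw [abs_div, abs_of_pos hc, div_le_one hc]
    exact hs
  have hmean : ∫ s, s ∂((unif c).map fun s => s / c) = 0 := by
    rw [integral_map hm.aemeasurable (by fun_prop)]
    have h1 : ∫ s, s ∂(unif c) = 0 := Pool.Agent.W788.LD.Uni.unif_mean c hc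
    rw [integral_div, h1, zero_div]
  obtain ⟨G, hG, hP, hb⟩ := h ((unif c).map fun s => s / c) hp (Or.inl hbd) c ρ hc hc2 hρ
  have hTm : Measurable (fun (ω : (Fin d → ℤ) → ℝ) x => ω x / c) := by fun_prop
  have hlaw : (Measure.infinitePi fun _ : Fin d → ℤ => unif c).map (fun ω x => ω x / c) =
      Measure.infinitePi fun _ : Fin d → ℤ => (unif c).map fun s => s / c :=
    Measure.infinitePi_map_pi (μ := fun _ : Fin d → ℤ => unif c)
      (f := fun _ (s : ℝ) => s / c) (fun _ => by fun_prop)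
  refine ⟨(fun ω x => ω x / c) ⁻¹' G, hTm hG, ?_, ?_⟩
  · have h1 : (Measure.infinitePi fun _ : Fin d → ℤ => unif c).real
        ((fun ω x => ω x / c) ⁻¹' G) =
        (Measure.infinitePi fun _ : Fin d → ℤ => (unif c).map fun s => s / c).real G := by
      rw [← hlaw, map_measureReal_apply hTm hG]
    rw [h1]
    exact hP
  · intro ω hω U hU θ E δ u w hθ hθ1 hcrit hδ heq hwu t a ha R hR A hA
    have hcan : ∀ x, c * (ω x / c) = ω x := fun x => by field_simp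
    obtain ⟨W, hW⟩ := Pool.Agent.H5R2.NB.ALL.a_EX d (-1) (fun x => 2 * d + ω x)
    rw [prop_eq hW hU t u]
    refine hb _ hω W (by simpa only [hcan] using hW) θ E δ u w hθ hθ1 ?_ (by simpa using hδ)
      (fun x => ?_) hwu t a ha R hR A hA
    · intro j hj
      rw [hmean, mul_zero, sub_zero]
      exact hcrit j hj
    · rw [hcan, hop_eq']
      exact heq x

end Pool.Agent.Results.MP_562b47_mp.WavePacketSpreading
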